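import Pool.Agent.W708.VC.Int
set_option autoImplicit false

/-! The pointwise limit at the saddle point. -/

namespace Pool.Agent.W708.VC
open Filter Finset Pool.Agent.W709.VC MeasureTheory
open scoped Real Topology

/-- the step -/
noncomputable def tt (s : ℝ) (N : ℕ) : ℝ := s / Real.sqrt N

theorem sqrt_top : Tendsto (fun N : ℕ => Real.sqrt N) atTop atTop :=
  Real.tendsto_sqrt_atTop.comp tendsto_natCast_atTop_atTop

theorem tt_zero (s : ℝ) : Tendsto (tt s) atTop (𝓝 0) :=
  sqrt_top.const_div_atTop s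

theorem ev_tt (s : ℝ) : ∀ᶠ N : ℕ in atTop, 0 < N ∧ |tt s N| ≤ 1 := by
  have h := (tt_zero s).abs
  rw [abs_zero] at h
  filter_upwards [h.eventually (ge_mem_nhds (zero_lt_one' ℝ)), eventually_gt_atTop 0] with N h1 h2
  exact ⟨h2, h1⟩

theorem r1 (s : ℝ) : Tendsto (fun N : ℕ => (N : ℝ) * (Real.cos (tt s N) - 1)) atTop (𝓝 (-(s ^ 2 / 2))) := by
  rw [← tendsto_sub_nhds_zero_iff]
  refine squeeze_zero_norm' (a := fun N : ℕ => s ^ 4 / N) ?_ ?_
  · filter_upwards [ev_tt s] with N hN
    obtain ⟨hN, ht⟩ := hN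
    have hN' : (0:ℝ) < N := by exact_mod_cast hN
    have hsq : Real.sqrt N ^ 2 = N := Real.sq_sqrt hN'.le
    have hs0 : 0 < Real.sqrt N := Real.sqrt_pos.2 hN'
    have h := Real.cos_bound ht
    have h2 : (N : ℝ) * tt s N ^ 2 = s ^ 2 := by
      rw [tt, div_pow, hsq]; field_simp
    have h4 : (N : ℝ) * |tt s N| ^ 4 = s ^ 4 / N := by
      have : |tt s N| ^ 4 = tt s N ^ 4 := by
        rw [show (4:ℕ) = 2 * 2 from rfl, pow_mul, sq_abs, pow_mul]
      rw [this, tt, div_pow, show Real.sqrt N ^ 4 = (N:ℝ) ^ 2 by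
        rw [show (4:ℕ) = 2 * 2 from rfl, pow_mul, hsq]]
      field_simp
    rw [Real.norm_eq_abs]
    have he : (N : ℝ) * (Real.cos (tt s N) - 1) - -(s ^ 2 / 2) = N * (Real.cos (tt s N) - (1 - tt s N ^ 2 / 2)) := by
      linear_combination (-(1:ℝ)/2) * h2
    rw [he, abs_mul, abs_of_pos hN']
    calc (N:ℝ) * |Real.cos (tt s N) - (1 - tt s N ^ 2 / 2)| ≤ N * (|tt s N| ^ 4 * (5 / 96)) := by gcongr
      _ = (N * |tt s N| ^ 4) * (5 / 96) := by ring
      _ = s ^ 4 / N * (5 / 96) := by rw [h4]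
      _ ≤ s ^ 4 / N * 1 := by
        have : 0 ≤ s ^ 4 / N := by positivity
        gcongr; norm_num
      _ = s ^ 4 / N := mul_one _
  · exact tendsto_natCast_atTop_atTop.const_div_atTop _

theorem r2 (s : ℝ) : Tendsto (fun N : ℕ => (N : ℝ) * Real.sin (tt s N) - s * Real.sqrt N) atTop (𝓝 0) := by
  refine squeeze_zero_norm' (a := fun N : ℕ => |s| ^ 3 / Real.sqrt N) ?_ ?_
  · filter_upwards [ev_tt s] with N hN
    obtain ⟨hN, ht⟩ := hN
    have hN' : (0:ℝ) < N := by exact_mod_cast hN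
    have hsq : Real.sqrt N ^ 2 = N := Real.sq_sqrt hN'.le
    have hs0 : 0 < Real.sqrt N := Real.sqrt_pos.2 hN'
    have h := Real.sin_bound ht
    have h1 : (N : ℝ) * tt s N = s * Real.sqrt N := by
      rw [tt]; field_simp; linear_combination (-s) * hsq
    have h3 : (N : ℝ) * |tt s N| ^ 3 = |s| ^ 3 / Real.sqrt N := by
      rw [tt, abs_div, abs_of_pos hs0, div_pow]
      field_simp
      linear_combination (-|s| ^ 3) * hsq
    rw [Real.norm_eq_abs, ← h1, ← mul_sub, abs_mul, abs_of_pos hN']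
    have h5 : |tt s N| ^ 5 ≤ |tt s N| ^ 3 := pow_le_pow_of_le_one (abs_nonneg _) ht (by norm_num)
    have h6 : |Real.sin (tt s N) - tt s N| ≤ |tt s N| ^ 3 := by
      have e : Real.sin (tt s N) - tt s N = (Real.sin (tt s N) - (tt s N - tt s N ^ 3 / 6)) + -(tt s N ^ 3 / 6) := by ring
      rw [e]
      refine (abs_add_le _ _).trans ?_
      rw [abs_neg, abs_div, abs_pow, abs_of_pos (by norm_num : (0:ℝ) < 6)]
      have : 0 ≤ |tt s N| ^ 3 := by positivity
      linarith
    calc (N:ℝ) * |Real.sin (tt s N) - tt s N| ≤ N * |tt s N| ^ 3 := by gcongr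
      _ = |s| ^ 3 / Real.sqrt N := h3
  · exact sqrt_top.const_div_atTop _

section
variable (b η s : ℝ)

/-- the increment of the cosine -/
noncomputable def Dl (N : ℕ) : ℂ := Complex.cos ((-b + η * Complex.I) + (tt s N : ℝ)) -
  Complex.cos (-b + η * Complex.I)

theorem Dl_eq (N : ℕ) : Dl b η s N = Complex.cos (-b + η * Complex.I) * ((Real.cos (tt s N) - 1 : ℝ) : ℂ) -
    Complex.sin (-b + η * Complex.I) * ((Real.sin (tt s N) : ℝ) : ℂ) := by
  rw [Dl, Complex.cos_add]
  push_cast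
  ring

theorem lim_b : Tendsto (fun N : ℕ => (N : ℂ) * Dl b η s N +
    ((s * Real.sqrt N : ℝ) : ℂ) * Complex.sin (-b + η * Complex.I)) atTop
    (𝓝 (-((s:ℂ) ^ 2 / 2) * Complex.cos (-b + η * Complex.I))) := by
  have h1 := ((Complex.continuous_ofReal.tendsto _).comp (r1 s)).const_mul (Complex.cos (-b + η * Complex.I))
  have h2 := ((Complex.continuous_ofReal.tendsto _).comp (r2 s)).const_mul (Complex.sin (-b + η * Complex.I))
  have h3 := h1.sub h2
  refine (h3.congr (fun N => ?_)).trans (le_of_eq ?_)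
  · rw [Dl_eq]
    simp only [Function.comp_apply]
    push_cast
    ring
  · congr 1
    push_cast
    ring

theorem lim_c : Tendsto (fun N : ℕ => ((Real.sqrt N : ℝ) : ℂ) * Dl b η s N) atTop
    (𝓝 (-(s:ℂ) * Complex.sin (-b + η * Complex.I))) := by
  have h0 : Tendsto (fun N : ℕ => ((1 / Real.sqrt N : ℝ) : ℂ)) atTop (𝓝 0) := by
    have := (Complex.continuous_ofReal.tendsto _).comp (sqrt_top.const_div_atTop 1)
    rw [Complex.ofReal_zero] at this
    exact this
  have h1 := (lim_b b η s).mul h0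
  have h2 := h1.sub_const ((s:ℂ) * Complex.sin (-b + η * Complex.I))
  rw [mul_zero, zero_sub, ← neg_mul] at h2
  refine h2.congr' ?_
  filter_upwards [eventually_gt_atTop 0] with N hN
  have hN' : (0:ℝ) < N := by exact_mod_cast hN
  have hs0 : 0 < Real.sqrt N := Real.sqrt_pos.2 hN'
  have hsq : ((Real.sqrt N : ℝ) : ℂ) ^ 2 = N := by
    rw [← Complex.ofReal_pow, Real.sq_sqrt hN'.le]; simp
  have hne : ((Real.sqrt N : ℝ) : ℂ) ≠ 0 := by exact_mod_cast hs0.ne'
  push_cast
  field_simp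
  rw [← hsq]
  ring

theorem lim_D : Tendsto (Dl b η s) atTop (𝓝 0) := by
  have h0 : Tendsto (fun N : ℕ => ((1 / Real.sqrt N : ℝ) : ℂ)) atTop (𝓝 0) := by
    have := (Complex.continuous_ofReal.tendsto _).comp (sqrt_top.const_div_atTop 1)
    rw [Complex.ofReal_zero] at this
    exact this
  have h1 := (lim_c b η s).mul h0
  rw [mul_zero] at h1
  refine h1.congr' ?_
  filter_upwards [eventually_gt_atTop 0] with N hN
  have hN' : (0:ℝ) < N := by exact_mod_cast hN
  have hs0 : 0 < Real.sqrt N := Real.sqrt_pos.2 hN'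
  have hne : ((Real.sqrt N : ℝ) : ℂ) ≠ 0 := by exact_mod_cast hs0.ne'
  push_cast
  field_simp

theorem lim_d : Tendsto (fun N : ℕ => (N : ℂ) * Dl b η s N ^ 2) atTop
    (𝓝 ((s:ℂ) ^ 2 * Complex.sin (-b + η * Complex.I) ^ 2)) := by
  have h1 := (lim_c b η s).pow 2
  refine (h1.congr (fun N => ?_)).trans (le_of_eq ?_)
  · rw [mul_pow, ← Complex.ofReal_pow, Real.sq_sqrt (Nat.cast_nonneg N)]
    simp
  · congr 1; ring

end

section
variable {b η : ℝ} (hδ : 0 < Real.sin b * Real.sinh η) (α s : ℝ) (d : ℕ → ℕ)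
  (hd : ∀ N : ℕ, |2 * π * (d N) - α * N| ≤ 2 * π)

include hδ hd

theorem d_le (hα : 0 < α) (N : ℕ) (hN : 0 < N) : (d N : ℝ) ≤ (α + 2 * π) / (2 * π) * N := by
  have hπ := Real.pi_pos
  have hN' : (1:ℝ) ≤ N := by exact_mod_cast hN
  have := (abs_le.1 (hd N)).2
  rw [div_mul_eq_mul_div, le_div_iff₀ (by positivity)]
  nlinarith

/-- the linear term -/
theorem lim_S1 : Tendsto (fun N : ℕ => Dl b η s N * (∑ j ∈ range (d N), wi b η (phi N j)) +
    ((s * Real.sqrt N : ℝ) : ℂ) / (2 * π) *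
      (Complex.sin (-b + η * Complex.I) * ∫ x in (0:ℝ)..α, wi b η x)) atTop
    (𝓝 (-((s:ℂ) ^ 2 / (4 * π)) * (Complex.cos (-b + η * Complex.I) * ∫ x in (0:ℝ)..α, wi b η x))) := by
  have hπ : (π : ℂ) ≠ 0 := by exact_mod_cast Real.pi_ne_zero
  have h1 := (lim_b b η s).mul_const (1 / (2 * π : ℂ) * ∫ x in (0:ℝ)..α, wi b η x)
  have h2 : Tendsto (fun N : ℕ => Dl b η s N * (∑ j ∈ range (d N), wi b η (phi N j) -
      (N / (2 * π) : ℂ) * ∫ x in (0:ℝ)..α, wi b η x)) atTop (𝓝 0) := by
    refine squeeze_zero_norm' (a := fun N : ℕ => ‖Dl b η s N‖ *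
      (((Real.sin b * Real.sinh η)⁻¹) ^ 2 * (α + 2 * π) + (Real.sin b * Real.sinh η)⁻¹)) ?_ ?_
    · filter_upwards [eventually_gt_atTop 0] with N hN
      rw [norm_mul]
      gcongr
      exact riemann (wi b η) _ _ (wi_cont hδ) (wi_norm hδ) (wi_lip hδ) (by positivity) α N (d N) hN (hd N)
    · have := (lim_D b η s).norm.mul_const
        (((Real.sin b * Real.sinh η)⁻¹) ^ 2 * (α + 2 * π) + (Real.sin b * Real.sinh η)⁻¹)
      rwa [norm_zero, zero_mul] at this
  have h3 := h1.add h2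
  refine (h3.congr (fun N => ?_)).trans (le_of_eq ?_)
  · field_simp
    ring
  · congr 1
    field_simp
    ring

/-- the quadratic term -/
theorem lim_S2 : Tendsto (fun N : ℕ => Dl b η s N ^ 2 * (∑ j ∈ range (d N), wi b η (phi N j) ^ 2)) atTop
    (𝓝 ((s:ℂ) ^ 2 / (2 * π) *
      (Complex.sin (-b + η * Complex.I) ^ 2 * ∫ x in (0:ℝ)..α, wi b η x ^ 2))) := by
  have hπ : (π : ℂ) ≠ 0 := by exact_mod_cast Real.pi_ne_zero
  have h1 := (lim_d b η s).mul_const (1 / (2 * π : ℂ) * ∫ x in (0:ℝ)..α, wi b η x ^ 2)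
  have h2 : Tendsto (fun N : ℕ => Dl b η s N ^ 2 * (∑ j ∈ range (d N), wi b η (phi N j) ^ 2 -
      (N / (2 * π) : ℂ) * ∫ x in (0:ℝ)..α, wi b η x ^ 2)) atTop (𝓝 0) := by
    refine squeeze_zero_norm' (a := fun N : ℕ => ‖Dl b η s N‖ ^ 2 *
      ((2 * ((Real.sin b * Real.sinh η)⁻¹) ^ 3) * (α + 2 * π) + ((Real.sin b * Real.sinh η)⁻¹) ^ 2)) ?_ ?_
    · filter_upwards [eventually_gt_atTop 0] with N hN
      rw [norm_mul, norm_pow]
      gcongr
      refine riemann (fun x => wi b η x ^ 2) _ _ ((wi_cont hδ).pow 2) (fun x => ?_) (wi_sq_lip hδ)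
        (by positivity) α N (d N) hN (hd N)
      rw [norm_pow]
      have := wi_norm hδ x
      gcongr
    · have := ((lim_D b η s).norm.pow 2).mul_const
        ((2 * ((Real.sin b * Real.sinh η)⁻¹) ^ 3) * (α + 2 * π) + ((Real.sin b * Real.sinh η)⁻¹) ^ 2)
      rwa [norm_zero, zero_pow two_ne_zero, zero_mul] at this
  have h3 := h1.add h2
  refine (h3.congr (fun N => ?_)).trans (le_of_eq ?_)
  · field_simp
    ring
  · congr 1
    field_simp
    ring

/-- the remainder -/
theorem lim_R (hα : 0 < α) : Tendsto (fun N : ℕ => ∑ j ∈ range (d N),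
    (Complex.log (1 + Dl b η s N * wi b η (phi N j)) -
      (Dl b η s N * wi b η (phi N j) - (Dl b η s N * wi b η (phi N j)) ^ 2 / 2))) atTop (𝓝 0) := by
  set W : ℝ := (Real.sin b * Real.sinh η)⁻¹ with hW
  have hW0 : 0 < W := by positivity
  have hsmall : ∀ᶠ N : ℕ in atTop, ‖Dl b η s N‖ * W ≤ 1 / 2 := by
    have := (lim_D b η s).norm.mul_const W
    rw [norm_zero, zero_mul] at this
    exact this.eventually (ge_mem_nhds (by norm_num : (0:ℝ) < 1 / 2))
  refine squeeze_zero_norm' (a := fun N : ℕ => (α + 2 * π) / (2 * π) * W ^ 3 *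
    (‖((Real.sqrt N : ℝ) : ℂ) * Dl b η s N‖ ^ 3 * (1 / Real.sqrt N))) ?_ ?_
  · filter_upwards [hsmall, eventually_gt_atTop 0] with N hs hN
    have hN' : (0:ℝ) < N := by exact_mod_cast hN
    have hs0 : 0 < Real.sqrt N := Real.sqrt_pos.2 hN'
    have hsq : Real.sqrt N ^ 2 = N := Real.sq_sqrt hN'.le
    have hterm : ∀ j ∈ range (d N), ‖Complex.log (1 + Dl b η s N * wi b η (phi N j)) -
        (Dl b η s N * wi b η (phi N j) - (Dl b η s N * wi b η (phi N j)) ^ 2 / 2)‖ ≤
        (‖Dl b η s N‖ * W) ^ 3 := by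
      intro j _
      set z := Dl b η s N * wi b η (phi N j) with hz
      have hzn : ‖z‖ ≤ ‖Dl b η s N‖ * W := by
        rw [hz, norm_mul]
        have := wi_norm hδ (phi N j)
        gcongr
      have hz2 : ‖z‖ ≤ 1 / 2 := hzn.trans hs
      have h := Complex.norm_log_sub_logTaylor_le 2 (z := z) (by linarith)
      have hT : Complex.logTaylor (2 + 1) z = z - z ^ 2 / 2 := by
        simp [Complex.logTaylor, Finset.sum_range_succ]
        ring
      rw [hT] at h
      refine h.trans ?_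
      have h1 : (1 - ‖z‖)⁻¹ ≤ 2 := by
        rw [inv_le_comm₀ (by linarith) (by norm_num)]
        linarith
      have h0 : 0 ≤ ‖z‖ ^ (2 + 1) := by positivity
      calc ‖z‖ ^ (2 + 1) * (1 - ‖z‖)⁻¹ / ((2 : ℕ) + 1) ≤ ‖z‖ ^ (2 + 1) * 2 / ((2 : ℕ) + 1) := by gcongr
        _ ≤ ‖z‖ ^ 3 := by
          have h00 : 0 ≤ ‖z‖ ^ 3 := by positivity
          push_cast
          linarith
        _ ≤ _ := by gcongr
    refine (norm_sum_le _ _).trans ((Finset.sum_le_sum hterm).trans ?_)
    rw [Finset.sum_const, card_range, nsmul_eq_mul]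
    have hdl := d_le hδ α d hd hα N hN
    rw [norm_mul, Complex.norm_real, Real.norm_of_nonneg hs0.le]
    calc (d N : ℝ) * (‖Dl b η s N‖ * W) ^ 3 ≤ ((α + 2 * π) / (2 * π) * N) * (‖Dl b η s N‖ * W) ^ 3 := by
          gcongr
      _ = _ := by
        rw [mul_pow, mul_pow, show Real.sqrt N ^ 3 = N * Real.sqrt N by rw [pow_succ, hsq]]
        field_simp
  · have h0 : Tendsto (fun N : ℕ => 1 / Real.sqrt N) atTop (𝓝 0) := sqrt_top.const_div_atTop 1
    have h1 := (((lim_c b η s).norm.pow 3).mul h0).const_mul ((α + 2 * π) / (2 * π) * W ^ 3)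
    rwa [mul_zero, mul_zero] at h1

/-- the exponent of the product -/
theorem lim_log (hα : 0 < α) : Tendsto (fun N : ℕ => (∑ j ∈ range (d N),
    Complex.log (1 + Dl b η s N * wi b η (phi N j))) +
    ((s * Real.sqrt N : ℝ) : ℂ) / (2 * π) *
      (Complex.sin (-b + η * Complex.I) * ∫ x in (0:ℝ)..α, wi b η x)) atTop
    (𝓝 (-((s:ℂ) ^ 2 / (4 * π)) * ((Real.sin α : ℂ) * wi b η α))) := by
  have hπ : (π : ℂ) ≠ 0 := by exact_mod_cast Real.pi_ne_zero
  have h := ((lim_S1 hδ α s d hd).sub ((lim_S2 hδ α s d hd).div_const 2)).add (lim_R hδ α s d hd hα)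
  rw [← I2 hδ α]
  refine (h.congr (fun N => ?_)).trans (le_of_eq ?_)
  · rw [Finset.sum_sub_distrib, Finset.sum_sub_distrib, ← Finset.mul_sum]
    have : ∑ j ∈ range (d N), (Dl b η s N * wi b η (phi N j)) ^ 2 / 2 =
        Dl b η s N ^ 2 * (∑ j ∈ range (d N), wi b η (phi N j) ^ 2) / 2 := by
      rw [Finset.mul_sum, Finset.sum_div]
      refine Finset.sum_congr rfl fun j _ => by ring
    rw [this]
    ring
  · congr 1
    field_simp
    ring

end

theorem cos_fac (z : ℂ) : 4 * Complex.cos z ^ 2 = Complex.exp (-(2 * Complex.I * z)) *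
    (1 + Complex.exp (2 * Complex.I * z)) ^ 2 := by
  have h1 : Complex.exp (2 * Complex.I * z) = Complex.exp (z * Complex.I) ^ 2 := by
    rw [← Complex.exp_nat_mul]; congr 1; push_cast; ring
  have h2 : Complex.exp (-(2 * Complex.I * z)) = (Complex.exp (z * Complex.I) ^ 2)⁻¹ := by
    rw [Complex.exp_neg, h1]
  have h3 : Complex.exp (-z * Complex.I) = (Complex.exp (z * Complex.I))⁻¹ := by
    rw [neg_mul, Complex.exp_neg]
  have hne := Complex.exp_ne_zero (z * Complex.I)
  rw [h1, h2, Complex.cos, h3]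
  field_simp
  ring

theorem Fint_eq (A N d : ℕ) (ψ : ℂ) : Fint A N d ψ =
    Complex.exp (Complex.I * A * N * ψ ^ 2 / (4 * π) + Complex.I * N * (ψ + π)) * RR N d ψ *
      (2 * Complex.sin ψ) / (1 + Complex.exp (Complex.I * N * (ψ + π))) ^ 2 := by
  rw [Fint, cos_fac, show 2 * Complex.I * (N * (ψ + π) / 2) = Complex.I * N * (ψ + π) by ring,
    Complex.exp_add, Complex.exp_neg]
  have hne := Complex.exp_ne_zero (Complex.I * N * (ψ + π))
  by_cases h : 1 + Complex.exp (Complex.I * N * (ψ + π)) = 0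
  · simp [h]
  · field_simp

theorem one_add_E {η : ℝ} (hη : 0 < η) (N : ℕ) (x : ℝ) (hN : 0 < N) :
    1 + Complex.exp (Complex.I * N * ((x : ℂ) + η * Complex.I + π)) ≠ 0 := by
  intro h
  have h1 : Complex.exp (Complex.I * N * ((x : ℂ) + η * Complex.I + π)) = -1 := by
    linear_combination h
  have h2 := congrArg norm h1
  rw [Complex.norm_exp, norm_neg, norm_one] at h2
  have h3 : (Complex.I * N * ((x : ℂ) + η * Complex.I + π)).re = -(N * η) := by
    simp
  rw [h3, Real.exp_eq_one_iff] at h2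
  have : (0:ℝ) < N := by exact_mod_cast hN
  have : 0 < N * η := by positivity
  linarith

theorem E_lim {η : ℝ} (hη : 0 < η) (x : ℕ → ℝ) :
    Tendsto (fun N : ℕ => 1 + Complex.exp (Complex.I * N * ((x N : ℂ) + η * Complex.I + π))) atTop (𝓝 1) := by
  have h : Tendsto (fun N : ℕ => Complex.exp (Complex.I * N * ((x N : ℂ) + η * Complex.I + π))) atTop (𝓝 0) := by
    rw [tendsto_zero_iff_norm_tendsto_zero]
    have h1 : Tendsto (fun N : ℕ => Real.exp (-(N * η))) atTop (𝓝 0) := by
      refine Real.tendsto_exp_atBot.comp ?_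
      exact tendsto_neg_atTop_atBot.comp (tendsto_natCast_atTop_atTop.atTop_mul_const hη)
    refine h1.congr fun N => ?_
    rw [Complex.norm_exp]
    congr 1
    simp
  have := h.const_add 1
  rwa [add_zero] at this

theorem RR_ratio {b η : ℝ} (hδ : 0 < Real.sin b * Real.sinh η) (s : ℝ) (N d : ℕ)
    (hs : ‖Dl b η s N‖ * (Real.sin b * Real.sinh η)⁻¹ ≤ 1 / 2) :
    RR N d ((-b + η * Complex.I) + (tt s N : ℝ)) / RR N d (-b + η * Complex.I) =
      Complex.exp (∑ j ∈ range d, Complex.log (1 + Dl b η s N * wi b η (phi N j))) := by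
  rw [Complex.exp_sum, RR, RR, ← Finset.prod_div_distrib]
  refine Finset.prod_congr rfl fun j _ => ?_
  have hne := den_ne hδ (phi N j)
  have h1 : ‖Dl b η s N * wi b η (phi N j)‖ ≤ 1 / 2 := by
    rw [norm_mul]
    refine le_trans ?_ hs
    have := wi_norm hδ (phi N j)
    gcongr
  have h2 : 1 + Dl b η s N * wi b η (phi N j) ≠ 0 := by
    intro h
    have : Dl b η s N * wi b η (phi N j) = -1 := by linear_combination h
    rw [this, norm_neg, norm_one] at h1
    norm_num at h1
  rw [Complex.exp_log h2]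
  have hne2 : -2 * Complex.cos (-b + η * Complex.I) - 2 * (Real.cos (phi N j) : ℂ) ≠ 0 := by
    intro h
    apply hne
    linear_combination (-(1:ℂ) / 2) * h
  rw [div_eq_iff hne2, wi, Dl]
  field_simp
  ring

theorem RR_ne {b η : ℝ} (hδ : 0 < Real.sin b * Real.sinh η) (N d : ℕ) :
    RR N d (-b + η * Complex.I) ≠ 0 := by
  rw [RR]
  refine Finset.prod_ne_zero_iff.2 fun j _ => ?_
  intro h
  apply den_ne hδ (phi N j)
  linear_combination (-(1:ℂ) / 2) * h

theorem lap : S_LAP := by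
  intro A α b η d hA hc hd
  have hπ : (π : ℂ) ≠ 0 := by exact_mod_cast Real.pi_ne_zero
  have hδ := crit_sin hc
  have hη := hc.hη
  have hα := hc.hα
  have hI1 := I1 hc
  have hA' : (4:ℝ) ≤ A := by exact_mod_cast hA
  refine ⟨-(Complex.I * A) / (4 * π) + (Real.sin α : ℂ) * wi b η α / (4 * π), ?_, ?_⟩
  · have h1 : (-(Complex.I * A) / (4 * π) : ℂ).re = 0 := by
      have : (-(Complex.I * A) / (4 * π) : ℂ) = ((-(A : ℝ) / (4 * π) : ℝ) : ℂ) * Complex.I := by
        push_cast; ring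
      rw [this, Complex.re_ofReal_mul, Complex.I_re, mul_zero]
    have h2 : ((Real.sin α : ℂ) * wi b η α / (4 * π) : ℂ) = ((Real.sin α / (4 * π) : ℝ) : ℂ) * wi b η α := by
      push_cast; ring
    rw [Complex.add_re, h1, h2, zero_add, Complex.re_ofReal_mul]
    have hb2 : b < π / 2 := by
      have := hc.hbm
      nlinarith [hc.hb]
    have hsα : 0 < Real.sin α := Real.sin_pos_of_pos_of_lt_pi hα (by linarith [hc.hαb, hc.hb])
    have hcb : 0 < Real.cos b := Real.cos_pos_of_mem_Ioo ⟨by linarith [hc.hb], hb2⟩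
    have hcα : -Real.cos b < Real.cos α := by
      rw [← Real.cos_pi_sub]
      exact Real.cos_lt_cos_of_nonneg_of_le_pi hα.le (by linarith [hc.hb]) (by linarith [hc.hαb])
    have hch : 1 ≤ Real.cosh η := Real.one_le_cosh η
    have hre : 0 < (wi b η α).re := by
      rw [wi, Complex.inv_re]
      refine div_pos ?_ (Complex.normSq_pos.2 (den_ne hδ α))
      rw [cos_psi]
      simp only [Complex.add_re, Complex.ofReal_re, Complex.mul_re, Complex.I_re, mul_zero,
        Complex.ofReal_im, Complex.I_im, mul_one, sub_zero, add_zero]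
      nlinarith
    have := Real.pi_pos
    positivity
  · intro s
    have hX := ((lim_log hδ α s d hd hα).add_const (Complex.I * A * s ^ 2 / (4 * π)))
    have hX' := (Complex.continuous_exp.tendsto _).comp hX
    have hsn : Complex.sin (-b + η * Complex.I) ≠ 0 := by
      intro h
      have h2 := congrArg Complex.re h
      rw [sin_psi] at h2
      simp only [Complex.add_re, Complex.ofReal_re, Complex.mul_re, Complex.I_re, mul_zero,
        Complex.ofReal_im, Complex.I_im, mul_one, sub_zero, add_zero, Complex.zero_re] at h2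
      have h3 : 0 < Real.sin b := Real.sin_pos_of_pos_of_lt_pi hc.hb (by linarith [hc.hαb, hc.hα])
      have h4 := Real.cosh_pos η
      nlinarith [mul_pos h3 h4]
    have hS : Tendsto (fun N : ℕ => Complex.sin ((-b + η * Complex.I) + (tt s N : ℝ)) /
        Complex.sin (-b + η * Complex.I)) atTop (𝓝 1) := by
      have h1 : Tendsto (fun N : ℕ => (-b + η * Complex.I) + ((tt s N : ℝ) : ℂ)) atTop
          (𝓝 ((-b + η * Complex.I) + ((0:ℝ) : ℂ))) :=
        ((Complex.continuous_ofReal.tendsto _).comp (tt_zero s)).const_add _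
      have h2 := ((Complex.continuous_sin.tendsto _).comp h1).div_const (Complex.sin (-b + η * Complex.I))
      rw [Complex.ofReal_zero, add_zero, div_self hsn] at h2
      exact h2
    have hE0 := E_lim hη (fun _ => -b)
    have hE1 := E_lim hη (fun N => -b + tt s N)
    have hE := (hE0.div hE1 one_ne_zero).pow 2
    rw [div_one, one_pow] at hE
    have hall := (hX'.mul hS).mul hE
    rw [mul_one, mul_one] at hall
    have hsmall : ∀ᶠ N : ℕ in atTop, ‖Dl b η s N‖ * (Real.sin b * Real.sinh η)⁻¹ ≤ 1 / 2 := by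
      have := (lim_D b η s).norm.mul_const (Real.sin b * Real.sinh η)⁻¹
      rw [norm_zero, zero_mul] at this
      exact this.eventually (ge_mem_nhds (by norm_num : (0:ℝ) < 1 / 2))
    have hlim : -((s:ℂ) ^ 2 / (4 * π)) * ((Real.sin α : ℂ) * wi b η α) + Complex.I * A * s ^ 2 / (4 * π) =
        -(-(Complex.I * A) / (4 * π) + (Real.sin α : ℂ) * wi b η α / (4 * π)) * s ^ 2 := by
      field_simp
      ring
    rw [hlim] at hall
    refine hall.congr' ?_
    filter_upwards [hsmall, eventually_gt_atTop 0] with N hs hN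
    have hN' : (0:ℝ) < N := by exact_mod_cast hN
    have hs0 : 0 < Real.sqrt N := Real.sqrt_pos.2 hN'
    have hsq : Real.sqrt N ^ 2 = N := Real.sq_sqrt hN'.le
    have hNt : (N : ℂ) * (tt s N : ℝ) = ((s * Real.sqrt N : ℝ) : ℂ) := by
      rw [← Complex.ofReal_natCast, ← Complex.ofReal_mul]
      congr 1
      rw [tt]; field_simp; linear_combination (-s) * hsq
    have hNt2 : (N : ℂ) * ((tt s N : ℝ) : ℂ) ^ 2 = (s:ℂ) ^ 2 := by
      rw [← Complex.ofReal_natCast, ← Complex.ofReal_pow, ← Complex.ofReal_mul, ← Complex.ofReal_pow]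
      congr 1
      rw [tt, div_pow, hsq]; field_simp
    have hψ : (-b + s / (Real.sqrt N : ℝ) + η * Complex.I : ℂ) = (-b + η * Complex.I) + (tt s N : ℝ) := by
      rw [tt]; push_cast; ring
    have hψe : (-b + η * Complex.I) + ((tt s N : ℝ) : ℂ) = (((-b + tt s N : ℝ)) : ℂ) + η * Complex.I := by
      push_cast; ring
    rw [hψ, Fint_eq, Fint_eq]
    have hRR := RR_ratio hδ s N (d N) hs
    have hRn := RR_ne hδ N (d N)
    have hRR' : RR N (d N) ((-b + η * Complex.I) + (tt s N : ℝ)) =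
        Complex.exp (∑ j ∈ range (d N), Complex.log (1 + Dl b η s N * wi b η (phi N j))) *
          RR N (d N) (-b + η * Complex.I) := by
      rw [← hRR, div_mul_cancel₀ _ hRn]
    rw [hRR']
    have hq0 : 1 + Complex.exp (Complex.I * N * ((-b + η * Complex.I) + π)) ≠ 0 := by
      have := one_add_E hη N (-b) hN
      rwa [Complex.ofReal_neg] at this
    have hq1 : 1 + Complex.exp (Complex.I * N * ((-b + η * Complex.I) + (tt s N : ℝ) + π)) ≠ 0 := by
      have := one_add_E hη N (-b + tt s N) hN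
      rwa [← hψe] at this
    have hexp : Complex.exp (Complex.I * A * N * ((-b + η * Complex.I) + (tt s N : ℝ)) ^ 2 / (4 * π) +
        Complex.I * N * ((-b + η * Complex.I) + (tt s N : ℝ) + π)) =
        Complex.exp (((s * Real.sqrt N : ℝ) : ℂ) / (2 * π) *
          (Complex.sin (-b + η * Complex.I) * ∫ x in (0:ℝ)..α, wi b η x) + Complex.I * A * s ^ 2 / (4 * π)) *
        Complex.exp (Complex.I * A * N * (-b + η * Complex.I) ^ 2 / (4 * π) +
          Complex.I * N * ((-b + η * Complex.I) + π)) := by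
      rw [← Complex.exp_add]
      congr 1
      rw [hI1, ← hNt2, ← hNt]
      push_cast
      field_simp
      ring_nf
      simp only [Complex.I_sq]
      ring
    rw [hexp]
    simp only [Function.comp_apply]
    have hE0' : (1 + Complex.exp (Complex.I * N * (((-b : ℝ) : ℂ) + η * Complex.I + π))) =
        1 + Complex.exp (Complex.I * N * ((-b + η * Complex.I) + π)) := by rw [Complex.ofReal_neg]
    have hE1' : (1 + Complex.exp (Complex.I * N * (((-b + tt s N : ℝ) : ℂ) + η * Complex.I + π))) =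
        1 + Complex.exp (Complex.I * N * ((-b + η * Complex.I) + (tt s N : ℝ) + π)) := by rw [← hψe]
    simp only [Pi.div_apply, Pi.pow_apply]
    rw [hE0', hE1', add_assoc, Complex.exp_add]
    have hn1 := Complex.exp_ne_zero (Complex.I * A * N * (-b + η * Complex.I) ^ 2 / (4 * π) +
          Complex.I * N * ((-b + η * Complex.I) + π))
    generalize Complex.exp (Complex.I * A * N * (-b + η * Complex.I) ^ 2 / (4 * π) +
          Complex.I * N * ((-b + η * Complex.I) + π)) = X1 at *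
    generalize 1 + Complex.exp (Complex.I * N * ((-b + η * Complex.I) + π)) = X2 at *
    generalize 1 + Complex.exp (Complex.I * N * ((-b + η * Complex.I) + (tt s N : ℝ) + π)) = X3 at *
    generalize RR N (d N) (-b + η * Complex.I) = X4 at *
    generalize Complex.sin ((-b + η * Complex.I) + (tt s N : ℝ)) = X5 at *
    field_simp

end Pool.Agent.W708.VC
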