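import Pool.Agent.W708.VC.Rie
set_option autoImplicit false

/-! The two integrals at the saddle point. -/

namespace Pool.Agent.W708.VC
open Filter Finset Pool.Agent.W709.VC MeasureTheory
open scoped Real Topology

/-- `1/(cos ψ + cos x)` -/
noncomputable def wi (b η x : ℝ) : ℂ := (Complex.cos (-b + η * Complex.I) + (Real.cos x : ℂ))⁻¹

theorem den_ne {b η : ℝ} (hδ : 0 < Real.sin b * Real.sinh η) (x : ℝ) :
    Complex.cos (-b + η * Complex.I) + (Real.cos x : ℂ) ≠ 0 := by
  rw [← norm_pos_iff]; exact lt_of_lt_of_le hδ (den_ge b η x hδ.le)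

theorem wi_norm {b η : ℝ} (hδ : 0 < Real.sin b * Real.sinh η) (x : ℝ) :
    ‖wi b η x‖ ≤ (Real.sin b * Real.sinh η)⁻¹ := by
  rw [wi, norm_inv]
  exact inv_anti₀ hδ (den_ge b η x hδ.le)

theorem wi_cont {b η : ℝ} (hδ : 0 < Real.sin b * Real.sinh η) : Continuous (wi b η) := by
  unfold wi
  refine Continuous.inv₀ (by fun_prop) (fun x => den_ne hδ x)

theorem wi_lip {b η : ℝ} (hδ : 0 < Real.sin b * Real.sinh η) (x y : ℝ) :
    ‖wi b η x - wi b η y‖ ≤ ((Real.sin b * Real.sinh η)⁻¹) ^ 2 * |x - y| := by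
  have h1 := den_ne hδ x
  have h2 := den_ne hδ y
  have h : wi b η x - wi b η y = ((Real.cos y - Real.cos x : ℝ) : ℂ) * wi b η x * wi b η y := by
    simp only [wi]
    push_cast at h1 h2 ⊢
    field_simp
    ring
  rw [h, norm_mul, norm_mul, Complex.norm_real]
  have h3 : ‖Real.cos y - Real.cos x‖ ≤ |x - y| := by
    rw [Real.norm_eq_abs, abs_sub_comm x y]
    have := Real.abs_cos_sub_cos_le y x
    exact this
  have h4 := wi_norm hδ x
  have h5 := wi_norm hδ y
  have h0 : 0 < (Real.sin b * Real.sinh η)⁻¹ := by positivity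
  calc ‖Real.cos y - Real.cos x‖ * ‖wi b η x‖ * ‖wi b η y‖
      ≤ |x - y| * (Real.sin b * Real.sinh η)⁻¹ * (Real.sin b * Real.sinh η)⁻¹ := by gcongr
    _ = _ := by ring

theorem wi_sq_lip {b η : ℝ} (hδ : 0 < Real.sin b * Real.sinh η) (x y : ℝ) :
    ‖wi b η x ^ 2 - wi b η y ^ 2‖ ≤ (2 * ((Real.sin b * Real.sinh η)⁻¹) ^ 3) * |x - y| := by
  have h : wi b η x ^ 2 - wi b η y ^ 2 = (wi b η x - wi b η y) * (wi b η x + wi b η y) := by ring
  rw [h, norm_mul]
  have h4 := wi_norm hδ x
  have h5 := wi_norm hδ y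
  have h6 := wi_lip hδ x y
  have h7 := norm_add_le (wi b η x) (wi b η y)
  have h0 : 0 < (Real.sin b * Real.sinh η)⁻¹ := by positivity
  calc ‖wi b η x - wi b η y‖ * ‖wi b η x + wi b η y‖
      ≤ (((Real.sin b * Real.sinh η)⁻¹) ^ 2 * |x - y|) * ((Real.sin b * Real.sinh η)⁻¹ + (Real.sin b * Real.sinh η)⁻¹) := by
        gcongr; linarith
    _ = _ := by ring

theorem P_cont {η : ℝ} (hη : 0 < η) : Continuous (P η) := by
  unfold P
  have h : ∀ x, Real.cosh η + Real.cos x ≠ 0 := fun x => (ch_cos_pos hη x).ne'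
  have h1 : Continuous (fun x => -Real.sin x / (Real.cosh η + Real.cos x)) :=
    Continuous.div (by fun_prop) (by fun_prop) h
  have h2 : Continuous (fun x => Real.sinh η / (Real.cosh η + Real.cos x)) :=
    Continuous.div (by fun_prop) (by fun_prop) h
  fun_prop

theorem ell_deriv {η : ℝ} (hη : 0 < η) (x : ℝ) :
    HasDerivAt (ell η) (-Real.sin x / (Real.cosh η + Real.cos x)) x := by
  have h := ch_cos_pos hη x
  have h1 : HasDerivAt (fun τ => 2 * Real.cosh η + 2 * Real.cos τ) (2 * -Real.sin x) x :=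
    ((Real.hasDerivAt_cos x).const_mul 2).const_add _
  have h2 := h1.log (by linarith : (0:ℝ) < 2 * Real.cosh η + 2 * Real.cos x).ne'
  have h3 : 2 * -Real.sin x / (2 * Real.cosh η + 2 * Real.cos x) =
      -Real.sin x / (Real.cosh η + Real.cos x) := by
    rw [← mul_add, mul_div_mul_left _ _ two_ne_zero]
  rw [h3] at h2
  exact h2

theorem P_int {η : ℝ} (hη : 0 < η) (p q : ℝ) : ∫ x in p..q, P η x =
    ((ell η q - ell η p : ℝ) : ℂ) +
      ((∫ x in p..q, Real.sinh η / (Real.cosh η + Real.cos x) : ℝ) : ℂ) * Complex.I := by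
  have h : ∀ x, Real.cosh η + Real.cos x ≠ 0 := fun x => (ch_cos_pos hη x).ne'
  have h1 : Continuous (fun x => -Real.sin x / (Real.cosh η + Real.cos x)) :=
    Continuous.div (by fun_prop) (by fun_prop) h
  have h2 : Continuous (fun x => Real.sinh η / (Real.cosh η + Real.cos x)) :=
    Continuous.div (by fun_prop) (by fun_prop) h
  have h3 : ∫ x in p..q, -Real.sin x / (Real.cosh η + Real.cos x) = ell η q - ell η p :=
    intervalIntegral.integral_eq_sub_of_hasDerivAt (fun x _ => ell_deriv hη x) (h1.intervalIntegrable _ _)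
  unfold P
  rw [intervalIntegral.integral_add, intervalIntegral.integral_mul_const,
    intervalIntegral.integral_ofReal, intervalIntegral.integral_ofReal, h3]
  · exact (Complex.continuous_ofReal.comp h1).intervalIntegrable _ _
  · exact ((Complex.continuous_ofReal.comp h2).mul continuous_const).intervalIntegrable _ _

theorem crit_sin {m α b η : ℝ} (hc : Crit m α b η) : 0 < Real.sin b * Real.sinh η := by
  have h1 : b < π := by
    have := hc.hα; have := hc.hαb; linarith
  exact mul_pos (Real.sin_pos_of_pos_of_lt_pi hc.hb h1) (Real.sinh_pos_iff.2 hc.hη)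

theorem I1 {m α b η : ℝ} (hc : Crit m α b η) :
    Complex.sin (-b + η * Complex.I) * ∫ x in (0:ℝ)..α, wi b η x =
      ((-2 * m * η : ℝ) : ℂ) + ((2 * π - 2 * m * b : ℝ) : ℂ) * Complex.I := by
  have hδ := crit_sin hc
  have hη := hc.hη
  have hP := P_cont hη
  rw [← intervalIntegral.integral_const_mul]
  have h1 : ∀ x, Complex.sin (-b + η * Complex.I) * wi b η x = (1 / 2 : ℂ) * (P η (b + x) + P η (b - x)) :=
    fun x => P_eq hδ hη x
  simp only [h1]
  have hP1 : Continuous (fun x => P η (b + x)) := hP.comp (by fun_prop)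
  have hP2 : Continuous (fun x => P η (b - x)) := hP.comp (by fun_prop)
  rw [intervalIntegral.integral_const_mul, intervalIntegral.integral_add
    (hP1.intervalIntegrable _ _) (hP2.intervalIntegrable _ _),
    intervalIntegral.integral_comp_add_left (fun x => P η x), intervalIntegral.integral_comp_sub_left (fun x => P η x),
    add_comm, add_zero, sub_zero, intervalIntegral.integral_add_adjacent_intervals
    (hP.intervalIntegrable _ _) (hP.intervalIntegrable _ _), P_int hη]
  have e1 : ell η (b + α) - ell η (b - α) = -4 * m * η := by linarith [hc.c1]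
  have e2 : ∫ x in (b - α)..(b + α), Real.sinh η / (Real.cosh η + Real.cos x) = 4 * (π - m * b) := by
    linarith [hc.c3]
  rw [e1, e2]
  push_cast
  ring

theorem I2 {b η : ℝ} (hδ : 0 < Real.sin b * Real.sinh η) (α : ℝ) :
    Complex.cos (-b + η * Complex.I) * (∫ x in (0:ℝ)..α, wi b η x) +
      Complex.sin (-b + η * Complex.I) ^ 2 * (∫ x in (0:ℝ)..α, wi b η x ^ 2) =
      (Real.sin α : ℂ) * wi b η α := by
  have hw := wi_cont hδ
  rw [← intervalIntegral.integral_const_mul, ← intervalIntegral.integral_const_mul,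
    ← intervalIntegral.integral_add ((by fun_prop : Continuous _).intervalIntegrable _ _)
      ((by fun_prop : Continuous _).intervalIntegrable _ _)]
  have hF : ∀ x : ℝ, HasDerivAt (fun x : ℝ => (Real.sin x : ℂ) * wi b η x)
      (Complex.cos (-b + η * Complex.I) * wi b η x + Complex.sin (-b + η * Complex.I) ^ 2 * wi b η x ^ 2) x := by
    intro x
    have hne := den_ne hδ x
    have h1 : HasDerivAt (fun x : ℝ => (Real.sin x : ℂ)) (Real.cos x : ℂ) x :=
      (Real.hasDerivAt_sin x).ofReal_comp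
    have h2 : HasDerivAt (fun x : ℝ => (Real.cos x : ℂ)) ((-Real.sin x : ℝ) : ℂ) x :=
      (Real.hasDerivAt_cos x).ofReal_comp
    have h3 := (h2.const_add (Complex.cos (-b + η * Complex.I))).inv hne
    have h4 : HasDerivAt (fun x : ℝ => (Real.sin x : ℂ) * wi b η x) _ x := h1.mul h3
    refine h4.congr_deriv ?_
    simp only [wi]
    have e1 := Complex.sin_sq_add_cos_sq (-b + η * Complex.I)
    have e2 : (Real.sin x : ℂ) ^ 2 + (Real.cos x : ℂ) ^ 2 = 1 := by
      rw [← Complex.ofReal_pow, ← Complex.ofReal_pow, ← Complex.ofReal_add, Real.sin_sq_add_cos_sq]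
      simp
    rw [Complex.ofReal_neg, neg_neg]
    field_simp
    linear_combination e2 - e1
  rw [intervalIntegral.integral_eq_sub_of_hasDerivAt (fun x _ => hF x)
    ((by fun_prop : Continuous _).intervalIntegrable _ _)]
  simp

end Pool.Agent.W708.VC
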