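import Pool.Agent.W709.VC.Defs
set_option autoImplicit false

/-! Midpoint Riemann sums; the two integrals at the saddle point. -/

namespace Pool.Agent.W708.VC
open Filter Finset Pool.Agent.W709.VC MeasureTheory
open scoped Real Topology

theorem cell (g : ℝ → ℂ) (L : ℝ) (hg : Continuous g)
    (hL : ∀ x y, ‖g x - g y‖ ≤ L * |x - y|) (hL0 : 0 ≤ L) (a h : ℝ) (hh : 0 ≤ h) :
    ‖(h : ℂ) * g (a + h / 2) - ∫ x in a..(a + h), g x‖ ≤ L * h * h := by
  have h1 : (h : ℂ) * g (a + h / 2) = ∫ x in a..(a + h), g (a + h / 2) := by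
    rw [intervalIntegral.integral_const]
    simp
  rw [h1, ← intervalIntegral.integral_sub (by simp) (hg.intervalIntegrable _ _)]
  have := intervalIntegral.norm_integral_le_of_norm_le_const (a := a) (b := a + h)
    (f := fun x => g (a + h / 2) - g x) (C := L * h) (by
      intro x hx
      rw [Set.uIoc_of_le (by linarith)] at hx
      refine (hL _ _).trans (mul_le_mul_of_nonneg_left ?_ hL0)
      rw [abs_le]
      constructor <;> linarith [hx.1, hx.2])
  refine this.trans (le_of_eq ?_)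
  rw [add_sub_cancel_left, abs_of_nonneg hh]

theorem riemann (g : ℝ → ℂ) (B L : ℝ) (hg : Continuous g) (hB : ∀ x, ‖g x‖ ≤ B)
    (hL : ∀ x y, ‖g x - g y‖ ≤ L * |x - y|) (hL0 : 0 ≤ L)
    (α : ℝ) (N d : ℕ) (hN : 0 < N) (hd : |2 * π * d - α * N| ≤ 2 * π) :
    ‖∑ j ∈ range d, g (phi N j) - (N / (2 * π) : ℂ) * ∫ x in (0:ℝ)..α, g x‖ ≤
      L * (α + 2 * π) + B := by
  have hπ := Real.pi_pos
  have hN' : (0:ℝ) < N := by exact_mod_cast hN
  have hN1 : (1:ℝ) ≤ N := by exact_mod_cast hN
  set h : ℝ := 2 * π / N with hh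
  have hpos : 0 < h := by positivity
  have hphi : ∀ j : ℕ, phi N j = (j : ℝ) * h + h / 2 := by
    intro j
    simp only [phi, hh]
    field_simp
  have hsum : ∑ j ∈ range d, ∫ x in ((j : ℝ) * h)..((j : ℝ) * h + h), g x = ∫ x in (0:ℝ)..(d * h), g x := by
    have := intervalIntegral.sum_integral_adjacent_intervals (μ := volume) (f := g)
      (a := fun k : ℕ => (k : ℝ) * h) (n := d) (fun k _ => hg.intervalIntegrable _ _)
    simp only [Nat.cast_zero, zero_mul] at this
    rw [← this]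
    refine Finset.sum_congr rfl fun j _ => ?_
    congr 1
    push_cast
    ring
  have hcells : ‖∑ j ∈ range d, (h : ℂ) * g (phi N j) - ∫ x in (0:ℝ)..(d * h), g x‖ ≤ d * (L * h * h) := by
    rw [← hsum, ← Finset.sum_sub_distrib]
    refine (norm_sum_le _ _).trans ?_
    calc ∑ j ∈ range d, ‖(h : ℂ) * g (phi N j) - ∫ x in ((j : ℝ) * h)..((j : ℝ) * h + h), g x‖
        ≤ ∑ j ∈ range d, L * h * h := by
          refine Finset.sum_le_sum fun j _ => ?_
          rw [hphi]
          exact cell g L hg hL hL0 _ h hpos.le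
      _ = d * (L * h * h) := by simp
  have hdh : |d * h - α| ≤ h := by
    have : (d : ℝ) * h - α = (2 * π * d - α * N) / N := by
      simp only [hh]; field_simp
    rw [this, abs_div, abs_of_pos hN', hh]
    gcongr
  have hend : ‖(∫ x in (0:ℝ)..(d * h), g x) - ∫ x in (0:ℝ)..α, g x‖ ≤ B * h := by
    rw [intervalIntegral.integral_interval_sub_left (hg.intervalIntegrable _ _) (hg.intervalIntegrable _ _)]
    refine (intervalIntegral.norm_integral_le_of_norm_le_const (C := B) (fun x _ => hB x)).trans ?_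
    have hB0 : 0 ≤ B := (norm_nonneg _).trans (hB 0)
    gcongr
  have htot : ‖∑ j ∈ range d, (h : ℂ) * g (phi N j) - ∫ x in (0:ℝ)..α, g x‖ ≤
      d * (L * h * h) + B * h := by
    have := norm_add_le (∑ j ∈ range d, (h : ℂ) * g (phi N j) - ∫ x in (0:ℝ)..(d * h), g x)
      ((∫ x in (0:ℝ)..(d * h), g x) - ∫ x in (0:ℝ)..α, g x)
    rw [sub_add_sub_cancel] at this
    exact this.trans (add_le_add hcells hend)
  have hC : ((N / (2 * π) : ℝ) : ℂ) * (h : ℂ) = 1 := by
    rw [← Complex.ofReal_mul, hh]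
    rw [show (N : ℝ) / (2 * π) * (2 * π / N) = 1 by field_simp]
    simp
  have heq : ∑ j ∈ range d, g (phi N j) - (N / (2 * π) : ℂ) * ∫ x in (0:ℝ)..α, g x =
      ((N / (2 * π) : ℝ) : ℂ) * (∑ j ∈ range d, (h : ℂ) * g (phi N j) - ∫ x in (0:ℝ)..α, g x) := by
    rw [mul_sub, ← Finset.mul_sum, ← mul_assoc, hC, one_mul]
    push_cast
    ring
  rw [heq, norm_mul, Complex.norm_real, Real.norm_of_nonneg (by positivity)]
  have hdle : d * h ≤ α + 2 * π := by
    have h1 := (abs_le.1 hdh).2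
    have h2 : h ≤ 2 * π := by
      rw [hh]; exact div_le_self (by positivity) hN1
    linarith
  calc (N / (2 * π) : ℝ) * ‖∑ j ∈ range d, (h : ℂ) * g (phi N j) - ∫ x in (0:ℝ)..α, g x‖
      ≤ (N / (2 * π) : ℝ) * (d * (L * h * h) + B * h) := by gcongr
    _ = L * (d * h) + B := by simp only [hh]; field_simp
    _ ≤ L * (α + 2 * π) + B := by gcongr

/-! ### The saddle point -/

theorem cos_psi (b η : ℝ) : Complex.cos (-b + η * Complex.I) =
    (Real.cos b * Real.cosh η : ℝ) + (Real.sin b * Real.sinh η : ℝ) * Complex.I := by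
  rw [Complex.cos_add_mul_I]
  simp
theorem sin_psi (b η : ℝ) : Complex.sin (-b + η * Complex.I) =
    (-Real.sin b * Real.cosh η : ℝ) + (Real.cos b * Real.sinh η : ℝ) * Complex.I := by
  rw [Complex.sin_add_mul_I]
  simp

/-- lower bound of the denominators -/
theorem den_ge (b η x : ℝ) (hδ : 0 ≤ Real.sin b * Real.sinh η) :
    Real.sin b * Real.sinh η ≤ ‖Complex.cos (-b + η * Complex.I) + (Real.cos x : ℂ)‖ := by
  refine le_trans ?_ (Complex.abs_im_le_norm _)
  rw [cos_psi]
  simp only [Complex.add_im, Complex.ofReal_im, Complex.mul_im, Complex.ofReal_re, Complex.I_im,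
    Complex.I_re, mul_one, mul_zero, add_zero, zero_add]
  rw [abs_of_nonneg hδ]

theorem ch_cos_pos {η : ℝ} (hη : 0 < η) (x : ℝ) : 0 < Real.cosh η + Real.cos x := by
  have h1 : 1 < Real.cosh η := Real.one_lt_cosh.2 hη.ne'
  linarith [Real.neg_one_le_cos x]

/-- the tangent -/
noncomputable def P (η x : ℝ) : ℂ := (((-Real.sin x / (Real.cosh η + Real.cos x) : ℝ)) : ℂ) +
  ((Real.sinh η / (Real.cosh η + Real.cos x) : ℝ) : ℂ) * Complex.I

theorem P_eq {b η : ℝ} (hδ : 0 < Real.sin b * Real.sinh η) (hη : 0 < η) (x : ℝ) :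
    Complex.sin (-b + η * Complex.I) * (Complex.cos (-b + η * Complex.I) + (Real.cos x : ℂ))⁻¹ =
      (1 / 2 : ℂ) * (P η (b + x) + P η (b - x)) := by
  have hne : Complex.cos (-b + η * Complex.I) + (Real.cos x : ℂ) ≠ 0 := by
    rw [← norm_pos_iff]; exact lt_of_lt_of_le hδ (den_ge b η x hδ.le)
  have h1 := (ch_cos_pos hη (b + x)).ne'
  have h2 := (ch_cos_pos hη (b - x)).ne'
  rw [mul_inv_eq_iff_eq_mul₀ hne, sin_psi, cos_psi]
  have e1 := Real.sin_sq_add_cos_sq b
  have e2 := Real.sin_sq_add_cos_sq x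
  have e3 := Real.cosh_sq η
  have hD1 : Real.cosh η + Real.cos (b + x) = Real.cosh η + (Real.cos b * Real.cos x - Real.sin b * Real.sin x) := by
    rw [Real.cos_add]
  have hD2 : Real.cosh η + Real.cos (b - x) = Real.cosh η + (Real.cos b * Real.cos x + Real.sin b * Real.sin x) := by
    rw [Real.cos_sub]
  simp only [P, Real.sin_add, Real.sin_sub]
  generalize Real.cosh η + Real.cos (b + x) = D1 at *
  generalize Real.cosh η + Real.cos (b - x) = D2 at *
  generalize Real.cos b = cb at *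
  generalize Real.sin b = sb at *
  generalize Real.cos x = cx at *
  generalize Real.sin x = sx at *
  generalize Real.cosh η = ch at *
  generalize Real.sinh η = sh at *
  have r1 : -sb * ch = 1 / 2 * ((-(sb * cx + cb * sx) / D1 + -(sb * cx - cb * sx) / D2) * (cb * ch + cx) -
      (sh / D1 + sh / D2) * (sb * sh)) := by
    field_simp
    rw [hD1, hD2]
    linear_combination (-2 * sb * (ch + cb * cx)) * e3 + (2 * sb * (ch + cb * cx)) * e2 +
      (2 * sb * ch * sx ^ 2) * e1
  have r2 : cb * sh = 1 / 2 * ((-(sb * cx + cb * sx) / D1 + -(sb * cx - cb * sx) / D2) * (sb * sh) +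
      (sh / D1 + sh / D2) * (cb * ch + cx)) := by
    field_simp
    rw [hD1, hD2]
    linear_combination (2 * sh * (ch + cb * cx) * cx) * e1
  rw [r1, r2]
  push_cast
  linear_combination (-(1 / 2 : ℂ) * (sh / D1 + sh / D2) * (sb * sh)) * Complex.I_sq
end Pool.Agent.W708.VC
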